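import Pool.Agent.Q253.Thin.PowSample

/-!
# Prime quadruplets between consecutive fifth powers

(1) Between ALL large consecutive fifth powers there are the expected number of almost prime quadruplets, and at most the
expected number (up to a constant) of prime quadruplets. (2) All these intervals are represented faithfully by one sparse set
of integers, with about `log ^ 5 n` elements between `n ^ 5` and `(n + 1) ^ 5`: for the prime quadruplets and for the almost
prime quadruplets with prescribed numbers of prime factors. (3) For a positive proportion of the `n` there are the expected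
number of primes `p` between `n ^ 5` and `(n + 1) ^ 5` such that `p + 2` is a prime or a product of two primes and `p + 6`, `p + 8`
are almost primes.

Libraries: `Y840.CT.GenF` (Chen's theorem for systems of shifts), `Y151.HS.FLC` (fundamental lemma), `Y79.HS.Den`,
starting files.
-/

set_option autoImplicit false

namespace Pool.Agent.Results.MP_c03ca8_nt.AlmostQuadruplets

open Finset Filter
open Pool.Agent.Q253.Thin

/-- The shifts of a quadruplet. -/
def H4 : Finset ℕ := {0, 2, 6, 8}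

/-- The number of the residue classes `a` modulo `q` with `q ∣ a (a + 2) (a + 6) (a + 8)`. -/
def w (q : ℕ) : ℕ := ((range q).filter (fun a => q ∣ a * (a + 2) * (a + 6) * (a + 8))).card

/-- `∏ (1 - w(q) / q)` over the primes `q ≤ X` -/
noncomputable def dens (X : ℕ) : ℝ := ∏ q ∈ (Icc 1 X).filter Nat.Prime, (1 - (w q : ℝ) / q)

/-- the number of the integers `p` with `n ^ 5 < p` and `p + 8 < (n + 1) ^ 5` -/
def len (n : ℕ) : ℕ := (n + 1) ^ 5 - n ^ 5 - 9

/-- the prime quadruplets between `n ^ 5` and `(n + 1) ^ 5` -/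
def Quads (n : ℕ) : Finset ℕ :=
  (Ioo (n ^ 5) ((n + 1) ^ 5)).filter (fun p => p + 8 < (n + 1) ^ 5 ∧ ∀ h ∈ H4, (p + h).Prime)

open Classical in
/-- the almost prime quadruplets between `n ^ 5` and `(n + 1) ^ 5` without prime factors `≤ z` -/
noncomputable def Almost (z : ℝ) (n : ℕ) : Finset ℕ :=
  (Ioo (n ^ 5) ((n + 1) ^ 5)).filter (fun p => p + 8 < (n + 1) ^ 5 ∧
    ∀ h ∈ H4, ∀ q : ℕ, q.Prime → q ∣ p + h → z < q)

/-- those for which `p + h` has exactly `r h` prime factors (with multiplicity) for all `h` -/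
noncomputable def AlmostR (z : ℝ) (r : ℕ → ℕ) (n : ℕ) : Finset ℕ :=
  (Almost z n).filter (fun p => ∀ h ∈ H4, (p + h).primeFactorsList.length = r h)

open Classical in
/-- the primes `p` between `n ^ 5` and `(n + 1) ^ 5` such that `p + 2` is a prime or a product of two primes and no `p + h` has a
prime factor `≤ z` -/
noncomputable def ChenQuads (z : ℝ) (n : ℕ) : Finset ℕ :=
  (Almost z n).filter (fun p => p.Prime ∧ ((p + 2).Prime ∨ ∃ a b : ℕ, a.Prime ∧ b.Prime ∧ p + 2 = a * b))

/-- the sampled count `|T ∩ W|` is `|T| |W| / len n` up to the error `ε |T| dens` -/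
def Faithful (ε : ℝ) (n : ℕ) (T W : Finset ℕ) : Prop :=
  |((T ∩ W).card : ℝ) - T.card * (W.card / len n)| ≤ ε * (T.card * dens (len n))

/-- the shifts as a function of the prime -/
def HH : ℕ → Finset ℕ := fun _ => H4

lemma w_eq {q : ℕ} (hq : q.Prime) : (Tz HH q).card = w q := by
  unfold Tz w
  congr 1
  apply filter_congr
  intro a _
  unfold HH H4
  rw [Nat.Prime.dvd_mul hq, Nat.Prime.dvd_mul hq, Nat.Prime.dvd_mul hq]
  simp [or_assoc]

lemma dens_eq (X : ℕ) : dT HH X = dens X := by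
  unfold dT dens
  apply prod_congr rfl
  intro q hq
  rw [w_eq (mem_filter.1 hq).2]

lemma hcard : ∀ q : ℕ, q.Prime → (HH q).card ≤ 4 := fun q _ => by
  unfold HH H4
  decide

lemma hloc : ∀ q : ℕ, q.Prime → (Tz HH q).card < q := by
  intro q hq
  rcases Nat.lt_or_ge q 5 with h5 | h5
  · interval_cases q
    · exact absurd hq Nat.not_prime_zero
    · exact absurd hq Nat.not_prime_one
    · decide
    · decide
    · exact absurd hq (by norm_num)
  · exact lt_of_le_of_lt ((Tz_card HH hq.pos).trans (hcard q hq)) (by omega)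

lemma len_eq (n : ℕ) : LP 5 8 n = len n := by
  unfold LP len
  omega

lemma window (n : ℕ) (p : ℕ) : (n ^ 5 < p ∧ p + 8 < (n + 1) ^ 5) ↔ p ∈ Ioc (n ^ 5) (n ^ 5 + LP 5 8 n) := by
  rw [mem_Ioc]
  unfold LP
  have : n ^ 5 ≤ (n + 1) ^ 5 := Nat.pow_le_pow_left (Nat.le_succ n) _
  omega

lemma almost_eq (t n : ℕ) : Almost ((len n : ℝ) ^ (1 / (t : ℝ))) n =
    IS t (LP 5 8 n) (n ^ 5) (n ^ 5 + LP 5 8 n) (Tz HH) := by
  classical
  ext p
  have h1 : p ∈ Almost ((len n : ℝ) ^ (1 / (t : ℝ))) n ↔ (p ∈ Ioo (n ^ 5) ((n + 1) ^ 5)) ∧ (p + 8 < (n + 1) ^ 5 ∧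
    ∀ h ∈ H4, ∀ q : ℕ, q.Prime → q ∣ p + h → (len n : ℝ) ^ (1 / (t : ℝ)) < q) := by
    unfold Almost
    rw [mem_filter]
  have h2 : p ∈ IS t (LP 5 8 n) (n ^ 5) (n ^ 5 + LP 5 8 n) (Tz HH) ↔ (p ∈ Ioc (n ^ 5) (n ^ 5 + LP 5 8 n)) ∧
    (∀ q : ℕ, q.Prime → (q : ℝ) ≤ ((LP 5 8 n : ℕ) : ℝ) ^ (1 / (t : ℝ)) → p % q ∉ Tz HH q) := by
    unfold IS
    rw [mem_filter]
  rw [h1, h2, ← window, mem_Ioo, len_eq]
  constructor
  · rintro ⟨⟨a1, _⟩, a2, a3⟩
    refine ⟨⟨a1, a2⟩, fun q hq hqz hmem => ?_⟩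
    obtain ⟨h, hh, hd⟩ := (mem_Tz HH hq.pos p).1 hmem
    have := a3 h hh q hq hd
    linarith
  · rintro ⟨⟨a1, a2⟩, a3⟩
    refine ⟨⟨a1, by omega⟩, a2, fun h hh q hq hd => ?_⟩
    by_contra hcon
    push Not at hcon
    exact a3 q hq hcon ((mem_Tz HH hq.pos p).2 ⟨h, hh, hd⟩)

lemma len_le (n : ℕ) (hn : 10 ≤ n) : len n ≤ n ^ 5 := by
  unfold len
  have h1 := (pow_gap 5 n (by norm_num)).2
  have h2 : 5 * (n + 1) ^ (5 - 1) ≤ n ^ 5 + 9 := by
    have h3 : 10 * (n + 1) ≤ 11 * n := by omega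
    have h4 : (10 * (n + 1)) ^ 4 ≤ (11 * n) ^ 4 := Nat.pow_le_pow_left h3 4
    have h5 : (10 * (n + 1)) ^ 4 = 10000 * (n + 1) ^ 4 := by ring
    have h6 : (11 * n) ^ 4 = 14641 * n ^ 4 := by ring
    have h7 : n ^ 5 = n * n ^ 4 := by ring
    have h8 : 10 * n ^ 4 ≤ n * n ^ 4 := Nat.mul_le_mul_right _ hn
    have h9 : (5 - 1 : ℕ) = 4 := rfl
    rw [h9]
    omega
  omega

lemma quads_sub (t n : ℕ) (ht : 1 ≤ t) (hn : 10 ≤ n) : Quads n ⊆ Almost ((len n : ℝ) ^ (1 / (t : ℝ))) n := by
  classical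
  intro p hp
  have h1 : p ∈ Ioo (n ^ 5) ((n + 1) ^ 5) ∧ (p + 8 < (n + 1) ^ 5 ∧ ∀ h ∈ H4, (p + h).Prime) := by
    unfold Quads at hp
    rwa [mem_filter] at hp
  obtain ⟨a1, a2, a3⟩ := h1
  have h2 : p ∈ Almost ((len n : ℝ) ^ (1 / (t : ℝ))) n ↔ (p ∈ Ioo (n ^ 5) ((n + 1) ^ 5)) ∧ (p + 8 < (n + 1) ^ 5 ∧
    ∀ h ∈ H4, ∀ q : ℕ, q.Prime → q ∣ p + h → (len n : ℝ) ^ (1 / (t : ℝ)) < q) := by
    unfold Almost
    rw [mem_filter]
  rw [h2]
  refine ⟨a1, a2, fun h hh q hq hd => ?_⟩
  have h3 := (Nat.prime_dvd_prime_iff_eq hq (a3 h hh)).1 hd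
  rw [mem_Ioo] at a1
  have hlen1 : (1 : ℝ) ≤ len n := by
    have h4 : 1 ≤ len n := by
      rw [← len_eq]
      rcases Nat.lt_or_ge n 12 with h | h
      · interval_cases n <;> decide
      · have := (LP_bounds (e := 5) (m := 8) (by norm_num) (show 8 + 4 ≤ n by omega)).1
        omega
    exact_mod_cast h4
  have h4 : (len n : ℝ) ^ (1 / (t : ℝ)) ≤ (len n : ℝ) ^ (1 : ℝ) := by
    apply Real.rpow_le_rpow_of_exponent_le hlen1
    have ht1 : (1 : ℝ) ≤ t := by exact_mod_cast ht
    rw [div_le_one (by linarith)]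
    exact ht1
  rw [Real.rpow_one] at h4
  refine lt_of_le_of_lt h4 ?_
  have h5 := len_le n hn
  exact_mod_cast (by omega : len n < q)

/-- **Quadruplets between consecutive fifth powers.** (I) There are `t ≥ 1`, `κ > 0` with `dens X ≥ κ / log ^ 4 X` and
(1) for ALL large `n` at least `κ len(n) dens(len n)` almost prime quadruplets (no prime factor `≤ len(n) ^ (1/t)`) and at most
`κ⁻¹ len(n) dens(len n)` prime quadruplets lie between `n ^ 5` and `(n + 1) ^ 5`; (2) for every function `ω ≥ 0` which tends to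
infinity there are sets `S_n` of at most `ω(n) log ^ 5 n` integers between `n ^ 5` and `(n + 1) ^ 5` such that for every `ε > 0`
and ALL large `n`, the number of the prime quadruplets with `p ∈ S_n` is the number of all prime quadruplets between `n ^ 5` and
`(n + 1) ^ 5` times `|S_n| / len(n)` up to an error at most `ε |S_n| dens(len n)`; the same holds for all almost prime quadruplets
and for those with exactly `r_h` prime factors of `p + h`, for all `r_0, r_2, r_6, r_8 ≤ n`. (II) There are `t ≥ 1`, `κ > 0` such that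
for all large `N` at least `κ N` of the `n ∈ [N, 2 N)` are such that for at least `κ n ^ 4 dens(n)` primes `p` between `n ^ 5` and
`(n + 1) ^ 5`, `p + 8 < (n + 1) ^ 5`, the number `p + 2` is a prime or a product of two primes, and `p + 2`, `p + 6`, `p + 8`
have no prime factor `≤ n ^ (1/t)`. -/
theorem result :
    (∃ (t : ℕ) (κ : ℝ), 1 ≤ t ∧ 0 < κ ∧ (∀ X : ℕ, 2 ≤ X → κ / Real.log X ^ 4 ≤ dens X) ∧
      (∃ n₀ : ℕ, ∀ n : ℕ, n₀ ≤ n →
        κ * (len n * dens (len n)) ≤ ((Almost ((len n : ℝ) ^ (1 / (t : ℝ))) n).card : ℝ) ∧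
        ((Quads n).card : ℝ) ≤ κ⁻¹ * (len n * dens (len n))) ∧
      ∀ ω : ℕ → ℝ, (∀ n, 0 ≤ ω n) → Tendsto ω atTop atTop → ∃ S : ℕ → Finset ℕ,
        (∀ n, ∀ p ∈ S n, n ^ 5 < p ∧ p < (n + 1) ^ 5) ∧ (∀ n, ((S n).card : ℝ) ≤ ω n * Real.log n ^ 5) ∧
        ∀ ε : ℝ, 0 < ε → ∃ n₀ : ℕ, ∀ n : ℕ, n₀ ≤ n → 0 < (S n).card ∧ Faithful ε n (S n) (Quads n) ∧
          Faithful ε n (S n) (Almost ((len n : ℝ) ^ (1 / (t : ℝ))) n) ∧
          ∀ r : ℕ → ℕ, (∀ h ∈ H4, r h ≤ n) → Faithful ε n (S n) (AlmostR ((len n : ℝ) ^ (1 / (t : ℝ))) r n)) ∧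
    (∃ (t : ℕ) (κ : ℝ), 1 ≤ t ∧ 0 < κ ∧ ∃ N₀ : ℕ, ∀ N : ℕ, N₀ ≤ N → ∃ U ⊆ Ico N (2 * N), κ * N ≤ (U.card : ℝ) ∧
      ∀ n ∈ U, κ * ((n : ℝ) ^ 4 * dens n) ≤ ((ChenQuads ((n : ℝ) ^ (1 / (t : ℝ))) n).card : ℝ)) := by
  classical
  constructor
  · obtain ⟨t, ht, c0, hc0, hlow⟩ := int_lower 4 (by norm_num)
    obtain ⟨Cu, hCu, hup⟩ := int_upper 4 t (by norm_num) ht
    obtain ⟨cV, hcV, hVlow⟩ := VZ_low 4 (by norm_num)
    obtain ⟨X₁, hX₁⟩ := hlow 1 one_pos
    obtain ⟨X₂, hX₂⟩ := hup 1 one_pos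
    have hsys := Tz_sys hcard hloc
    set κ : ℝ := min (min c0 cV) Cu⁻¹ with hκ
    have hκ0 : 0 < κ := by positivity
    refine ⟨t, κ, ht, hκ0, ?_, ?_, ?_⟩
    · intro X hX
      rw [← dens_eq, ← dT_eq]
      refine le_trans ?_ (hVlow X hX (Tz HH) hsys)
      have : 0 < Real.log X := Real.log_pos (by exact_mod_cast (by omega : 1 < X))
      exact div_le_div_of_nonneg_right ((min_le_left _ _).trans (min_le_right _ _)) (by positivity)
    · refine ⟨max (max X₁ X₂) 12, ?_⟩
      intro n hn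
      have n1 : X₁ ≤ n := (le_max_left _ _).trans ((le_max_left _ _).trans hn)
      have n2 : X₂ ≤ n := (le_max_right _ _).trans ((le_max_left _ _).trans hn)
      have n3 : 12 ≤ n := (le_max_right _ _).trans hn
      have hL := (LP_bounds (e := 5) (m := 8) (by norm_num) (show 8 + 4 ≤ n by omega)).1
      have hlen : (((n ^ 5 + LP 5 8 n : ℕ) : ℝ) - ((n ^ 5 : ℕ) : ℝ)) = (LP 5 8 n : ℕ) := by
        push_cast
        ring
      have h1 := hX₁ (LP 5 8 n) (n1.trans hL) (Tz HH) hsys (n ^ 5) (n ^ 5 + LP 5 8 n) (by rw [hlen]; linarith)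
      have h2 := hX₂ (LP 5 8 n) (n2.trans hL) (Tz HH) hsys (n ^ 5) (n ^ 5 + LP 5 8 n) (by rw [hlen]; linarith)
      rw [hlen, dT_eq, dens_eq, ← almost_eq, len_eq] at h1 h2
      have hd0 : 0 ≤ (len n : ℝ) * dens (len n) := by
        have := dT_nonneg hloc (len n)
        rw [dens_eq] at this
        positivity
      constructor
      · exact (mul_le_mul_of_nonneg_right ((min_le_left _ _).trans (min_le_left _ _)) hd0).trans h1
      · have h3 : ((Quads n).card : ℝ) ≤ ((Almost ((len n : ℝ) ^ (1 / (t : ℝ))) n).card : ℝ) := by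
          exact_mod_cast card_le_card (quads_sub t n ht (by omega))
        refine h3.trans (h2.trans (mul_le_mul_of_nonneg_right ?_ hd0))
        have h4 : κ ≤ Cu⁻¹ := min_le_right _ _
        rw [le_inv_comm₀ hCu hκ0]
        exact h4
    · intro ω hω0 hω
      set I : ℕ → Finset (Option (Option (Fin 9 → ℕ))) := fun n =>
        if 12 ≤ n then insertNone (insertNone (Fintype.piFinset (fun _ : Fin 9 => range (n + 1)))) else ∅ with hI
      set R : ℕ → Option (Option (Fin 9 → ℕ)) → Finset ℕ := fun n o =>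
        match o with
        | none => Quads n
        | some none => Almost ((len n : ℝ) ^ (1 / (t : ℝ))) n
        | some (some r) => AlmostR ((len n : ℝ) ^ (1 / (t : ℝ))) (fun h => if hh : h < 9 then r ⟨h, hh⟩ else 0) n with hR
      obtain ⟨S, hS1, hS2, hS3⟩ := powSample 4 HH (by norm_num) hcard 5 8 20 t (by norm_num) ht hloc _ I R (by
        intro n o ho
        rw [hI] at ho
        simp only at ho
        split_ifs at ho with hn
        · rw [← almost_eq, hR]
          rcases o with _ | _ | r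
          · exact quads_sub t n ht (by omega)
          · exact Subset.refl _
          · exact filter_subset _ _
        · simp at ho) (by
        filter_upwards [eventually_ge_atTop 12] with n hn
        rw [hI]
        simp only
        rw [if_pos hn, card_insertNone, card_insertNone, Fintype.card_piFinset, prod_const, card_univ,
          Fintype.card_fin, card_range]
        have h1 : (n + 1) ^ 9 ≤ (n ^ 2) ^ 9 := Nat.pow_le_pow_left (by nlinarith) _
        have h2 : (n ^ 2) ^ 9 = n ^ 18 := by rw [← pow_mul]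
        have h3 : n ^ 20 = n ^ 18 * n ^ 2 := by ring
        have h4 : 1 ≤ n ^ 18 := Nat.one_le_pow _ _ (by omega)
        have h5 : 4 ≤ n ^ 2 := by nlinarith
        nlinarith) ω hω0 hω
      refine ⟨S, ?_, hS2, ?_⟩
      · intro n p hp
        have := (window n p).2 (hS1 n hp)
        exact ⟨this.1, by omega⟩
      · intro ε hε
        obtain ⟨n₀, hn₀⟩ := hS3 ε hε
        refine ⟨max n₀ 12, ?_⟩
        intro n hn
        have n1 : n₀ ≤ n := (le_max_left _ _).trans hn
        have n2 : 12 ≤ n := (le_max_right _ _).trans hn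
        obtain ⟨g1, g2⟩ := hn₀ n n1
        have hIn : I n = insertNone (insertNone (Fintype.piFinset (fun _ : Fin 9 => range (n + 1)))) := by
          rw [hI]
          simp only
          rw [if_pos n2]
        have key : ∀ o ∈ I n, Faithful ε n (S n) (R n o) := by
          intro o ho
          have := g2 o ho
          rw [len_eq, dens_eq] at this
          exact this
        refine ⟨g1, ?_, ?_, ?_⟩
        · exact key none (by rw [hIn]; simp)
        · exact key (some none) (by rw [hIn]; simp)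
        · intro r hr
          have h1 := key (some (some (fun h : Fin 9 => if (h : ℕ) ∈ H4 then r h else 0))) (by
            rw [hIn, some_mem_insertNone, some_mem_insertNone, Fintype.mem_piFinset]
            intro h
            rw [mem_range]
            split_ifs with hh
            · have := hr h hh
              omega
            · omega)
          have h2 : R n (some (some (fun h : Fin 9 => if (h : ℕ) ∈ H4 then r h else 0))) =
              AlmostR ((len n : ℝ) ^ (1 / (t : ℝ))) r n := by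
            rw [hR]
            simp only
            unfold AlmostR
            apply filter_congr
            intro p _
            have hlt : ∀ h ∈ H4, h < 9 := by decide
            constructor
            · intro h3 h hh
              have := h3 h hh
              simp only [dif_pos (hlt h hh), if_pos hh] at this
              exact this
            · intro h3 h hh
              simp only [dif_pos (hlt h hh), if_pos hh]
              exact h3 h hh
          rw [h2] at h1
          exact h1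
  · obtain ⟨t, ht, κ, hκ, N₀, h⟩ := posProp 4 HH 2 5 8 hcard (fun _ => by unfold HH H4; decide)
      (fun _ => by unfold HH H4; decide) (by norm_num) (by norm_num) hloc
    refine ⟨t, κ, ht, hκ, N₀, ?_⟩
    intro N hN
    obtain ⟨U, hU, hUc, hUn⟩ := h N hN
    refine ⟨U, hU, hUc, ?_⟩
    intro n hn
    have h1 := hUn n hn
    rw [dens_eq] at h1
    refine h1.trans ?_
    rw [Nat.cast_le]
    apply card_le_card
    intro p hp
    unfold Gap at hp
    rw [mem_filter] at hp
    obtain ⟨a1, a2, a3, a4, a5⟩ := hp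
    unfold ChenQuads Almost
    rw [mem_filter, mem_filter]
    exact ⟨⟨a1, a2, fun h hh q hq hd => a5 q hq h hh hd⟩, a3, a4.1⟩

end Pool.Agent.Results.MP_c03ca8_nt.AlmostQuadruplets
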