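import Pool.Agent.Q197.WN.Elem

/-!
# Prime quadruplets between consecutive fifth powers: the exact entropy budget and the exact price of the exceptions, for all random sets
-/

set_option autoImplicit false

namespace Pool.Agent.Results.MP_c03ca8_nt.EntropyBudget

open Finset Filter Pool.Agent.Q197.WN Pool.Agent.Q120.CL Pool.Agent.Q120.HL Pool.Agent.Q120.ET
open scoped Topology

open Classical in
/-- The number of the quadruplets `(x, x + 2, x + 6, x + 8)` of elements of `S` with `n ^ 5 < x` and `x + 8 < (n + 1) ^ 5`. -/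
noncomputable def Q (n : ℕ) (S : Set ℕ) : ℕ :=
  ((range ((n + 1) ^ 5)).filter (fun x => n ^ 5 < x ∧ x + 8 < (n + 1) ^ 5 ∧ x ∈ S ∧ x + 2 ∈ S ∧ x + 6 ∈ S ∧ x + 8 ∈ S)).card

/-- The window between two consecutive fifth powers. -/
def W (n : ℕ) : Finset ℕ := Ioo (n ^ 5) ((n + 1) ^ 5)

/-- The expected number of quadruplets in the window. -/
noncomputable def E (n : ℕ) : ℝ := SS {0, 2, 6, 8} * ((n : ℝ) ^ 4 / (125 * Real.log n ^ 4))

/-- The entropy budget and the price of the exceptions. -/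
theorem result (z : ℕ → ℕ) (hz : Tendsto z atTop atTop) (hs : ∀ η : ℝ, 0 < η → ∀ᶠ k : ℕ in atTop, (z k : ℝ) ≤ η * k) :
    0 < SS {0, 2, 6, 8} ∧ Phase (pr z) W Q E (fun k M => (M : ℝ) * (16 ^ k / (k : ℝ) ^ 4)) ∧ Low (pr z) W Q E := by
  classical
  have hσ : 0 < SS {0, 2, 6, 8} := by
    apply SS_pos
    intro p hp _
    have hcard : nu {0, 2, 6, 8} p ≤ 4 := by
      unfold nu
      exact card_image_le
    rcases Nat.lt_or_ge 4 p with h | h
    · omega
    · have h2 := hp.two_le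
      interval_cases p
      · unfold nu; decide
      · unfold nu; decide
      · exact absurd hp (by norm_num)
  have hS : Tendsto (fun k => Sz {0, 2, 6, 8} (z k)) atTop (𝓝 (SS {0, 2, 6, 8})) := (Sz_tendsto _).comp hz
  have hD : ∀ h ∈ ({0, 2, 6, 8} : Finset ℕ), h ≤ 8 := by decide
  have hne : ({0, 2, 6, 8} : Finset ℕ).Nonempty := ⟨0, by decide⟩
  have hcard : ({0, 2, 6, 8} : Finset ℕ).card = 4 := by decide
  have h1 := pow_phase (m := 4) (by norm_num) hS hs (Finset.Subset.refl _) hD hne hσ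
  have h2 := pow_low (m := 4) (by norm_num) hS hs hD hne hσ
  have eW : (fun n : ℕ => Ico (n ^ (4 + 1) + 1) ((n + 1) ^ (4 + 1))) = W := by
    funext n
    ext x
    unfold W
    rw [mem_Ico, mem_Ioo]
    simp only [Nat.reduceAdd]
    omega
  have eQ : (fun n : ℕ => pat {0, 2, 6, 8} {0, 2, 6, 8} 8 (n ^ (4 + 1) + 1) ((n + 1) ^ (4 + 1))) = Q := by
    funext n S
    unfold pat Pool.Agent.Q197.WN.cnt Q
    refine congrArg card ?_
    ext x
    simp only [mem_filter, mem_Ico, mem_range, Nat.reduceAdd]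
    constructor
    · rintro ⟨⟨h3, h4⟩, h5⟩
      refine ⟨by omega, by omega, by omega, ?_, ?_, ?_, ?_⟩
      · exact (h5 (x + 0) (mem_sh.2 ⟨0, by decide, rfl⟩)).2 (mem_sh.2 ⟨0, by decide, rfl⟩)
      · exact (h5 (x + 2) (mem_sh.2 ⟨2, by decide, rfl⟩)).2 (mem_sh.2 ⟨2, by decide, rfl⟩)
      · exact (h5 (x + 6) (mem_sh.2 ⟨6, by decide, rfl⟩)).2 (mem_sh.2 ⟨6, by decide, rfl⟩)
      · exact (h5 (x + 8) (mem_sh.2 ⟨8, by decide, rfl⟩)).2 (mem_sh.2 ⟨8, by decide, rfl⟩)
    · rintro ⟨_, h3, h4, h5, h6, h7, h8⟩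
      refine ⟨⟨by omega, by omega⟩, fun y hy => ⟨fun _ => hy, fun _ => ?_⟩⟩
      obtain ⟨h, hh, rfl⟩ := mem_sh.1 hy
      simp only [mem_insert, mem_singleton] at hh
      rcases hh with rfl | rfl | rfl | rfl
      · exact h5
      · exact h6
      · exact h7
      · exact h8
  have eE : (fun n : ℕ => SS {0, 2, 6, 8} * ((((4 + 1 : ℕ) : ℝ) * (n : ℝ) ^ 4) /
      (((4 + 1 : ℕ) : ℝ) * Real.log n) ^ ({0, 2, 6, 8} : Finset ℕ).card)) = E := by
    funext n
    unfold E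
    rw [hcard, mul_pow]
    congr 1
    push_cast
    rw [mul_div_mul_comm]
    rcases eq_or_ne (Real.log n) 0 with h0 | h0
    · rw [h0]; simp
    · field_simp
      norm_num
      ring
  have eU : (fun (k M : ℕ) => (M : ℝ) * (((2 : ℝ) ^ k) ^ 4 / (k : ℝ) ^ ({0, 2, 6, 8} : Finset ℕ).card)) =
      (fun (k M : ℕ) => (M : ℝ) * (16 ^ k / (k : ℝ) ^ 4)) := by
    funext k M
    rw [hcard, ← pow_mul, mul_comm k 4, pow_mul]
    norm_num
  rw [eW, eQ, eE] at h2
  rw [eW, eQ, eE, eU] at h1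
  exact ⟨hσ, h1, h2⟩

end Pool.Agent.Results.MP_c03ca8_nt.EntropyBudget
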