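import Pool.Agent.Q154.NP.Pow

/-!
# Almost prime quadruplets between consecutive fifth powers: dense subsets and colourings

Between ALL large consecutive fifth powers `n ^ 5` and `(n + 1) ^ 5` there are at least `c n ^ 4 / log ^ 4 n` integers `p`
such that `p`, `p + 2`, `p + 6`, `p + 8` lie between them and have no prime factor `≤ n ^ (4/t)`. Every subset of positive
relative density of the set of these `p` contains arithmetic progressions of every given length whose difference is at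
most a power of `log n`, and for every colouring of it with finitely many colours there are such progressions of
constant colour along which each of the four numbers has a constant number of prime factors. The same is proved for all
consecutive `k`-th powers, `k ≥ 2`, and for all admissible vectors of `m` shifts of size at most `n ^ (k-1)`, uniformly in the
shifts.

Libraries: `Q250.NP.Core` (engine for narrow progressions, by the seat helper250), `Q253.Thin` and `Q253.Cov` (sieve for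
all systems of residue classes), `Y843.HS` (starting files: Szemerédi's theorem relative to sifted sets).
-/

set_option autoImplicit false

namespace Pool.Agent.Results.MP_c03ca8_nt.EveryFifthPower

open Finset
open Pool.Agent.Q154.NP

/-- there is no prime which divides, for every `x`, one of the numbers `x + h i` -/
def Admissible {m : ℕ} (h : Fin m → ℕ) : Prop :=
  ∀ q : ℕ, q.Prime → ∃ x : ℕ, ∀ i, ¬ q ∣ x + h i

open Classical in
/-- the `p` with `n ^ k < p` and `p + h i < (n + 1) ^ k` for all `i`, such that no `p + h i` has a prime factor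
`≤ ((n + 1) ^ k - n ^ k) ^ (1/t)` -/
noncomputable def Almost {m : ℕ} (k t : ℕ) (h : Fin m → ℕ) (n : ℕ) : Finset ℕ :=
  (Ioo (n ^ k) ((n + 1) ^ k)).filter (fun p => ∀ i, p + h i < (n + 1) ^ k ∧
    ∀ q : ℕ, q.Prime → q ∣ p + h i → (((n + 1) ^ k - n ^ k : ℕ) : ℝ) ^ (1 / (t : ℝ)) < q)

open Classical in
/-- the `p` with `n ^ 5 < p` and `p + 8 < (n + 1) ^ 5` such that none of the numbers `p`, `p + 2`, `p + 6`, `p + 8` has a prime
factor `≤ ((n + 1) ^ 5 - n ^ 5) ^ (1/t)` -/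
noncomputable def Quad (t n : ℕ) : Finset ℕ :=
  (Ioo (n ^ 5) ((n + 1) ^ 5)).filter (fun p => p + 8 < (n + 1) ^ 5 ∧
    ∀ q : ℕ, q.Prime → (q ∣ p ∨ q ∣ p + 2 ∨ q ∣ p + 6 ∨ q ∣ p + 8) →
      (((n + 1) ^ 5 - n ^ 5 : ℕ) : ℝ) ^ (1 / (t : ℝ)) < q)

lemma adm_iff {m : ℕ} (h : Fin m → ℕ) : Adm 1 0 h ↔ Admissible h := by
  unfold Adm Admissible
  simp only [one_mul, add_zero]

lemma almost_eq {m : ℕ} (k t : ℕ) (h : Fin m → ℕ) (n : ℕ) : Almost k t h n = Pool.Agent.Q154.NP.btw k t 1 0 h n := by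
  classical
  unfold Almost Pool.Agent.Q154.NP.btw
  apply filter_congr
  intro p _
  rw [Nat.mod_one]
  simp

lemma adm_quad : Admissible ![0, 2, 6, 8] := by
  intro q hq
  by_cases hd : q ∣ 11 * 13 * 17 * 19
  · have h1 : q = 11 ∨ q = 13 ∨ q = 17 ∨ q = 19 := by
      rcases (Nat.Prime.dvd_mul hq).1 hd with h | h
      · rcases (Nat.Prime.dvd_mul hq).1 h with h | h
        · rcases (Nat.Prime.dvd_mul hq).1 h with h | h
          · exact Or.inl ((Nat.prime_dvd_prime_iff_eq hq (by norm_num)).1 h)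
          · exact Or.inr (Or.inl ((Nat.prime_dvd_prime_iff_eq hq (by norm_num)).1 h))
        · exact Or.inr (Or.inr (Or.inl ((Nat.prime_dvd_prime_iff_eq hq (by norm_num)).1 h)))
      · exact Or.inr (Or.inr (Or.inr ((Nat.prime_dvd_prime_iff_eq hq (by norm_num)).1 h)))
    refine ⟨101, fun i => ?_⟩
    rcases h1 with rfl | rfl | rfl | rfl <;> fin_cases i <;> simp
  · refine ⟨11, fun i hi => hd (hi.trans ?_)⟩
    fin_cases i <;> simp

lemma quad_eq (t n : ℕ) : Quad t n = Almost 5 t ![0, 2, 6, 8] n := by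
  classical
  unfold Quad Almost
  apply filter_congr
  intro p hp
  constructor
  · rintro ⟨h1, h2⟩ i
    fin_cases i
    · exact ⟨(mem_Ioo.1 hp).2, fun q hq hd => h2 q hq (Or.inl hd)⟩
    · exact ⟨show p + 2 < (n + 1) ^ 5 by omega, fun q hq hd => h2 q hq (Or.inr (Or.inl hd))⟩
    · exact ⟨show p + 6 < (n + 1) ^ 5 by omega, fun q hq hd => h2 q hq (Or.inr (Or.inr (Or.inl hd)))⟩
    · exact ⟨show p + 8 < (n + 1) ^ 5 by omega, fun q hq hd => h2 q hq (Or.inr (Or.inr (Or.inr hd)))⟩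
  · intro h
    refine ⟨(h 3).1, fun q hq hd => ?_⟩
    rcases hd with hd | hd | hd | hd
    · exact (h 0).2 q hq hd
    · exact (h 1).2 q hq hd
    · exact (h 2).2 q hq hd
    · exact (h 3).2 q hq hd

/-- **(A) General theorem.** For every `m ≥ 1` there is `t ≥ 1` such that for every `k ≥ 2` there is `c > 0` with: for all large `n`
and ALL admissible `h` with entries `≤ n ^ (k-1)`,
(1) `Almost k t h n` has at least `c n ^ (k-1) / log ^ m n` elements;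
(2) for given `L` and `δ > 0` there is `D` such that every subset of `Almost k t h n` of relative density at least `δ` contains an
arithmetic progression with `L` terms and difference between `1` and `log ^ D n` (`n` large in terms of `L`, `δ`, `m`, `k` only);
(3) for given `L` and `K` there is `D` such that for every colouring of the integers with `K` colours there is a progression with `L`
terms in `Almost k t h n`, with difference between `1` and `log ^ D n`, whose terms have the same colour and are such that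
the number of the prime factors (with multiplicity) of `p + h i` is the same number `s i ≤ 2t` for all its terms `p`, for
each `i`.

**(B) Quadruplets between fifth powers.** The case `k = 5`, `h = (0, 2, 6, 8)`. -/
theorem result :
    (∀ m : ℕ, 1 ≤ m → ∃ t : ℕ, 1 ≤ t ∧ ∀ k : ℕ, 2 ≤ k →
      (∃ c : ℝ, 0 < c ∧ ∃ N₀ : ℕ, ∀ n : ℕ, N₀ ≤ n → ∀ h : Fin m → ℕ, Admissible h → (∀ i, h i ≤ n ^ (k - 1)) →
        c * (n : ℝ) ^ (k - 1) / Real.log n ^ m ≤ ((Almost k t h n).card : ℝ)) ∧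
      (∀ (L : ℕ) (δ : ℝ), 0 < δ → ∃ D N₀ : ℕ, ∀ n : ℕ, N₀ ≤ n →
        ∀ h : Fin m → ℕ, Admissible h → (∀ i, h i ≤ n ^ (k - 1)) →
        ∀ S ⊆ Almost k t h n, δ * ((Almost k t h n).card : ℝ) ≤ S.card →
          ∃ p d : ℕ, 1 ≤ d ∧ (d : ℝ) ≤ Real.log n ^ D ∧ ∀ j < L, p + j * d ∈ S) ∧
      (∀ L K : ℕ, ∃ D N₀ : ℕ, ∀ n : ℕ, N₀ ≤ n →
        ∀ h : Fin m → ℕ, Admissible h → (∀ i, h i ≤ n ^ (k - 1)) →
        ∀ χ : ℕ → Fin K, ∃ (s : Fin m → ℕ) (κ : Fin K), (∀ i, 1 ≤ s i ∧ s i ≤ 2 * t) ∧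
          ∃ p d : ℕ, 1 ≤ d ∧ (d : ℝ) ≤ Real.log n ^ D ∧ ∀ j < L, p + j * d ∈ Almost k t h n ∧
            (∀ i, (p + j * d + h i).primeFactorsList.length = s i) ∧ χ (p + j * d) = κ)) ∧
    (∃ t : ℕ, 1 ≤ t ∧
      (∃ c : ℝ, 0 < c ∧ ∃ N₀ : ℕ, ∀ n : ℕ, N₀ ≤ n →
        c * (n : ℝ) ^ 4 / Real.log n ^ 4 ≤ ((Quad t n).card : ℝ)) ∧
      (∀ (L : ℕ) (δ : ℝ), 0 < δ → ∃ D N₀ : ℕ, ∀ n : ℕ, N₀ ≤ n →
        ∀ S ⊆ Quad t n, δ * ((Quad t n).card : ℝ) ≤ S.card →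
          ∃ p d : ℕ, 1 ≤ d ∧ (d : ℝ) ≤ Real.log n ^ D ∧ ∀ j < L, p + j * d ∈ S) ∧
      (∀ L K : ℕ, ∃ D N₀ : ℕ, ∀ n : ℕ, N₀ ≤ n →
        ∀ χ : ℕ → Fin K, ∃ (s₀ s₂ s₆ s₈ : ℕ) (κ : Fin K),
          (1 ≤ s₀ ∧ s₀ ≤ 2 * t) ∧ (1 ≤ s₂ ∧ s₂ ≤ 2 * t) ∧ (1 ≤ s₆ ∧ s₆ ≤ 2 * t) ∧ (1 ≤ s₈ ∧ s₈ ≤ 2 * t) ∧
          ∃ p d : ℕ, 1 ≤ d ∧ (d : ℝ) ≤ Real.log n ^ D ∧ ∀ j < L, p + j * d ∈ Quad t n ∧
            (p + j * d).primeFactorsList.length = s₀ ∧ (p + j * d + 2).primeFactorsList.length = s₂ ∧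
            (p + j * d + 6).primeFactorsList.length = s₆ ∧ (p + j * d + 8).primeFactorsList.length = s₈ ∧
            χ (p + j * d) = κ)) := by
  classical
  have gen : ∀ m : ℕ, 1 ≤ m → ∃ t : ℕ, 1 ≤ t ∧ ∀ k : ℕ, 2 ≤ k →
      (∃ c : ℝ, 0 < c ∧ ∃ N₀ : ℕ, ∀ n : ℕ, N₀ ≤ n → ∀ h : Fin m → ℕ, Admissible h → (∀ i, h i ≤ n ^ (k - 1)) →
        c * (n : ℝ) ^ (k - 1) / Real.log n ^ m ≤ ((Almost k t h n).card : ℝ)) ∧
      (∀ (L : ℕ) (δ : ℝ), 0 < δ → ∃ D N₀ : ℕ, ∀ n : ℕ, N₀ ≤ n →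
        ∀ h : Fin m → ℕ, Admissible h → (∀ i, h i ≤ n ^ (k - 1)) →
        ∀ S ⊆ Almost k t h n, δ * ((Almost k t h n).card : ℝ) ≤ S.card →
          ∃ p d : ℕ, 1 ≤ d ∧ (d : ℝ) ≤ Real.log n ^ D ∧ ∀ j < L, p + j * d ∈ S) ∧
      (∀ L K : ℕ, ∃ D N₀ : ℕ, ∀ n : ℕ, N₀ ≤ n →
        ∀ h : Fin m → ℕ, Admissible h → (∀ i, h i ≤ n ^ (k - 1)) →
        ∀ χ : ℕ → Fin K, ∃ (s : Fin m → ℕ) (κ : Fin K), (∀ i, 1 ≤ s i ∧ s i ≤ 2 * t) ∧
          ∃ p d : ℕ, 1 ≤ d ∧ (d : ℝ) ≤ Real.log n ^ D ∧ ∀ j < L, p + j * d ∈ Almost k t h n ∧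
            (∀ i, (p + j * d + h i).primeFactorsList.length = s i) ∧ χ (p + j * d) = κ) := by
    intro m hm
    obtain ⟨t, ht, H⟩ := pow_main m hm
    refine ⟨t, ht, fun k hk => ?_⟩
    obtain ⟨c, hc, ⟨N₁, h1⟩, h2, h3, -⟩ := H k hk 1 le_rfl
    refine ⟨⟨c, hc, N₁, fun n hn h hA hh => ?_⟩, fun L δ hδ => ?_, fun L K => ?_⟩
    · rw [almost_eq]
      exact h1 n hn 0 h (by norm_num) ((adm_iff h).2 hA) hh
    · obtain ⟨D, N₀, h4⟩ := h2 L δ hδ
      refine ⟨D, N₀, fun n hn h hA hh S hS hSc => ?_⟩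
      rw [almost_eq] at hS hSc
      exact h4 n hn 0 h (by norm_num) ((adm_iff h).2 hA) hh S hS hSc
    · obtain ⟨D, N₀, h4⟩ := h3 L K
      refine ⟨D, N₀, fun n hn h hA hh χ => ?_⟩
      simp only [almost_eq]
      exact h4 n hn 0 h (by norm_num) ((adm_iff h).2 hA) hh χ
  refine ⟨gen, ?_⟩
  obtain ⟨t, ht, H⟩ := gen 4 (by norm_num)
  obtain ⟨⟨c, hc, N₁, h1⟩, h2, h3⟩ := H 5 (by norm_num)
  have hsmall : ∀ n : ℕ, 2 ≤ n → 8 ≤ n ^ (5 - 1) := by
    intro n hn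
    have := Nat.pow_le_pow_left hn 4
    show 8 ≤ n ^ 4
    omega
  have hh : ∀ n : ℕ, 2 ≤ n → ∀ i : Fin 4, (![0, 2, 6, 8] : Fin 4 → ℕ) i ≤ n ^ (5 - 1) := by
    intro n hn i
    refine le_trans ?_ (hsmall n hn)
    fin_cases i <;> simp
  refine ⟨t, ht, ⟨c, hc, max N₁ 2, fun n hn => ?_⟩, fun L δ hδ => ?_, fun L K => ?_⟩
  · rw [quad_eq]
    exact h1 n ((le_max_left _ _).trans hn) _ adm_quad (hh n ((le_max_right _ _).trans hn))
  · obtain ⟨D, N₀, h4⟩ := h2 L δ hδ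
    refine ⟨D, max N₀ 2, fun n hn S hS hSc => ?_⟩
    rw [quad_eq] at hS hSc
    exact h4 n ((le_max_left _ _).trans hn) _ adm_quad (hh n ((le_max_right _ _).trans hn)) S hS hSc
  · obtain ⟨D, N₀, h4⟩ := h3 L K
    refine ⟨D, max N₀ 2, fun n hn χ => ?_⟩
    obtain ⟨s, κ, h5, p, d, hd1, hd2, h6⟩ :=
      h4 n ((le_max_left _ _).trans hn) _ adm_quad (hh n ((le_max_right _ _).trans hn)) χ
    refine ⟨s 0, s 1, s 2, s 3, κ, h5 0, h5 1, h5 2, h5 3, p, d, hd1, hd2, fun j hj => ?_⟩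
    obtain ⟨g1, g2, g3⟩ := h6 j hj
    rw [quad_eq]
    exact ⟨g1, g2 0, g2 1, g2 2, g2 3, g3⟩

end Pool.Agent.Results.MP_c03ca8_nt.EveryFifthPower
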