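import Pool.Agent.Q106.ZO.PwL

/-!
# MP_c03ca8_nt: a zero-one law for prime constellations in arbitrary disjoint sets, in the sieved models of the primes

The sieved model of level `Q`: a random set `A` which contains the integers `n` coprime to `Q` independently with
probability `(Q / φ(Q)) / log n` (at most `1`), and no others (`IsModel μ (level Q) A`; `Q = 1` is Cramér's model).
Let `F` be a finite system of forms `a m + b`, `a ≥ 1` (quadruplets: `m, m + 2, m + 6, m + 8`), and let `B_n` be ANY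
sequence of disjoint finite sets of integers (for instance the intervals between consecutive fifth powers, or any
intervals, progressions in intervals, ...). Let `E_n` be the mean number of occurrences of `F` inside `A ∩ B_n`, and
`P_n` the probability that a Poisson variable of mean `E_n` is smaller than `r`. Almost surely all but finitely many
`B_n` contain at least `r` occurrences if `∑ P_n` converges; if it diverges, the number of the failures `n < N` has
the exact order of `∑_{n < N} P_n`, and it is asymptotic to it for quadruplets (and whenever the sets of values at two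
arguments never differ by fewer than two elements). After the powers `n^e` this gives the threshold up to the second
order.
-/

set_option autoImplicit false

namespace Pool.Agent.Results.MP_c03ca8_nt.ZeroOneLaw

open Finset MeasureTheory ProbabilityTheory Filter
open scoped Topology
open Pool.Agent.Q120.GM (IsModel level sing)

/-- The set of the values at `m` of the forms `a m + b`, `(a, b) ∈ F`. -/
def values (F : Finset (ℕ × ℕ)) (m : ℕ) : Finset ℕ := F.image (fun f => f.1 * m + f.2)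

/-- The `m` such that all values at `m` are elements of `A` and of `B`. -/
def occ (A : Set ℕ) (F : Finset (ℕ × ℕ)) (B : Set ℕ) : Set ℕ := {m : ℕ | ∀ v ∈ values F m, v ∈ A ∧ v ∈ B}

/-- The mean number of occurrences inside `B`: the sum, over the `m` whose values all lie in `B`, of the probability
that they are all elements of the random set of level `Q`. -/
noncomputable def mean (Q : ℕ) (F : Finset (ℕ × ℕ)) (B : Set ℕ) : ℝ :=
  ∑ᶠ m ∈ {m : ℕ | ∀ v ∈ values F m, v ∈ B}, ∏ v ∈ values F m, level Q v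

/-- The probability that a Poisson variable of mean `E` is smaller than `r`. -/
noncomputable def poisson (r : ℕ) (E : ℝ) : ℝ := Real.exp (-E) * ∑ j ∈ range r, E ^ j / (j.factorial : ℝ)

/-- The number of the `n < N` such that `B n` contains fewer than `r` occurrences. -/
noncomputable def failures (A : Set ℕ) (F : Finset (ℕ × ℕ)) (B : ℕ → Finset ℕ) (r N : ℕ) : ℝ :=
  ({n : ℕ | n < N ∧ (occ A F (B n)).ncard < r}.ncard : ℝ)

/-- The translates of `H` as a system of forms `m + h`. -/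
def translates (H : Finset ℕ) : Finset (ℕ × ℕ) := H.image (fun h => (1, h))

/-- The length `(e^k / 𝔖) (log n)^k (log n + a log log n)`, `k = |H|`, with the singular series `𝔖` of level `Q`. -/
noncomputable def len (Q : ℕ) (H : Finset ℕ) (e : ℕ) (a : ℝ) (n : ℕ) : ℝ :=
  (e : ℝ) ^ H.card / sing Q H * Real.log n ^ H.card * (Real.log n + a * Real.log (Real.log n))

theorem occ_eq {F : Finset (ℕ × ℕ)} (hF : F.Nonempty) (ha : ∀ f ∈ F, 1 ≤ f.1) {Ω : Type} (A : Ω → Set ℕ) (B : Finset ℕ)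
    (ω : Ω) : occ (A ω) F B = ↑(Pool.Agent.Q106.UR.oc A (Pool.Agent.Q106.ZO.arg F B) (Pool.Agent.Q106.LF.vals F) ω) := by
  ext m
  rw [Finset.mem_coe, Pool.Agent.Q106.UR.mem_oc, Pool.Agent.Q106.ZO.mem_arg hF ha]
  constructor
  · intro h
    exact ⟨fun f hf => (h _ (mem_image.2 ⟨f, hf, rfl⟩)).2, fun v hv => (h v hv).1⟩
  · rintro ⟨h1, h2⟩ v hv
    refine ⟨h2 v hv, ?_⟩
    obtain ⟨f, hf, rfl⟩ := mem_image.1 hv
    exact h1 f hf

theorem ncard_eq {F : Finset (ℕ × ℕ)} (hF : F.Nonempty) (ha : ∀ f ∈ F, 1 ≤ f.1) {Ω : Type} (A : Ω → Set ℕ)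
    (B : Finset ℕ) (r : ℕ) (ω : Ω) : (occ (A ω) F B).ncard < r + 1 ↔
      ω ∈ Pool.Agent.Q106.ZO.few A (Pool.Agent.Q106.ZO.arg F B) (Pool.Agent.Q106.LF.vals F) r := by
  rw [occ_eq hF ha, Set.ncard_coe_finset]
  exact Nat.lt_succ_iff

theorem mean_eq {F : Finset (ℕ × ℕ)} (hF : F.Nonempty) (ha : ∀ f ∈ F, 1 ≤ f.1) (Q : ℕ) (B : Finset ℕ) :
    mean Q F B = Pool.Agent.Q106.ZO.mn (level Q) (Pool.Agent.Q106.ZO.arg F B) (Pool.Agent.Q106.LF.vals F) := by
  unfold mean Pool.Agent.Q106.ZO.mn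
  have h1 : {m : ℕ | ∀ v ∈ values F m, v ∈ (B : Set ℕ)} = ↑(Pool.Agent.Q106.ZO.arg F B) := by
    ext m
    rw [Finset.mem_coe, Pool.Agent.Q106.ZO.mem_arg hF ha]
    constructor
    · intro h f hf
      exact h _ (mem_image.2 ⟨f, hf, rfl⟩)
    · intro h v hv
      obtain ⟨f, hf, rfl⟩ := mem_image.1 hv
      exact h f hf
  rw [h1, finsum_mem_coe_finset]
  rfl

theorem poisson_eq (r : ℕ) (E : ℝ) : poisson (r + 1) E = Pool.Agent.Q106.ZO.ps r E := rfl

theorem failures_eq {F : Finset (ℕ × ℕ)} (hF : F.Nonempty) (ha : ∀ f ∈ F, 1 ≤ f.1) {Ω : Type} (A : Ω → Set ℕ)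
    (B : ℕ → Finset ℕ) (r N : ℕ) (ω : Ω) : failures (A ω) F B (r + 1) N =
      Pool.Agent.Q106.ZO.fl A (Pool.Agent.Q106.LF.vals F) (fun n => Pool.Agent.Q106.ZO.arg F (B n)) r N ω := by
  classical
  unfold failures Pool.Agent.Q106.ZO.fl Pool.Agent.Q120.NC.cnt
  have h1 : {n : ℕ | n < N ∧ (occ (A ω) F (B n)).ncard < r + 1} = ↑((range N).filter (fun n =>
      ω ∈ Pool.Agent.Q106.ZO.few A (Pool.Agent.Q106.ZO.arg F (B n)) (Pool.Agent.Q106.LF.vals F) r)) := by
    ext n
    rw [Finset.mem_coe, mem_filter, mem_range, Set.mem_ofPred_eq, ncard_eq hF ha]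
  rw [h1, Set.ncard_coe_finset, card_filter]
  push_cast
  refine sum_congr rfl (fun n _ => ?_)
  by_cases h : ω ∈ Pool.Agent.Q106.ZO.few A (Pool.Agent.Q106.ZO.arg F (B n)) (Pool.Agent.Q106.LF.vals F) r
  · rw [if_pos h, Set.indicator_of_mem h]
  · rw [if_neg h, Set.indicator_of_notMem h]

theorem quad_overlap (i j : ℕ) (hij : i ≠ j) :
    2 ≤ (values (translates {0, 2, 6, 8}) j \ values (translates {0, 2, 6, 8}) i).card := by
  have hv : ∀ m, values (translates {0, 2, 6, 8}) m = {m, m + 2, m + 6, m + 8} := by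
    intro m
    unfold values translates
    rw [image_image]
    simp
  rw [hv, hv]
  refine Finset.one_lt_card.2 ?_
  simp only [Finset.mem_sdiff, mem_insert, mem_singleton]
  rcases Nat.lt_or_gt_of_ne hij with h | h
  · -- the larger argument is `j`
    by_cases h2 : j = i + 2
    · exact ⟨j + 8, by omega, j + 2, by omega, by omega⟩
    · exact ⟨j + 8, by omega, j + 6, by omega, by omega⟩
  · by_cases h2 : i = j + 2
    · exact ⟨j, by omega, j + 6, by omega, by omega⟩
    · exact ⟨j, by omega, j + 2, by omega, by omega⟩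

/-- **The zero-one law.** -/
theorem result :
    (∀ Q : ℕ, ∃ (Ω : Type) (_ : MeasurableSpace Ω) (μ : Measure Ω) (_ : IsProbabilityMeasure μ) (A : Ω → Set ℕ),
      IsModel μ (level Q) A) ∧
    ∀ (Ω : Type) [MeasurableSpace Ω] (μ : Measure Ω) [IsProbabilityMeasure μ] (A : Ω → Set ℕ) (Q : ℕ), 1 ≤ Q →
      IsModel μ (level Q) A →
      (∀ F : Finset (ℕ × ℕ), F.Nonempty → (∀ f ∈ F, 1 ≤ f.1) → ∀ r : ℕ, 1 ≤ r → ∃ c C : ℝ, 0 < c ∧ 0 < C ∧
        ∀ B : ℕ → Finset ℕ, (∀ i j, i ≠ j → Disjoint (B i) (B j)) →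
          (Summable (fun n => poisson r (mean Q F (B n))) →
            ∀ᵐ ω ∂μ, ∀ᶠ n in atTop, r ≤ (occ (A ω) F (B n)).ncard) ∧
          (¬ Summable (fun n => poisson r (mean Q F (B n))) → ∀ᵐ ω ∂μ, ∀ᶠ N in atTop,
            c * ∑ n ∈ range N, poisson r (mean Q F (B n)) ≤ failures (A ω) F B r N ∧
            failures (A ω) F B r N ≤ C * ∑ n ∈ range N, poisson r (mean Q F (B n))) ∧
          (¬ Summable (fun n => poisson r (mean Q F (B n))) →
            (∀ i j, i ≠ j → 2 ≤ (values F j \ values F i).card) → ∀ᵐ ω ∂μ,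
            Tendsto (fun N => failures (A ω) F B r N / ∑ n ∈ range N, poisson r (mean Q F (B n))) atTop (𝓝 1))) ∧
      (∀ i j, i ≠ j → 2 ≤ (values (translates {0, 2, 6, 8}) j \ values (translates {0, 2, 6, 8}) i).card) ∧
      ∀ H : Finset ℕ, 0 ∈ H → 0 < sing Q H → ∀ e : ℕ, 2 ≤ e → ∀ r : ℕ, 1 ≤ r → ∀ a : ℝ,
        ((r : ℝ) < a → ∀ᵐ ω ∂μ, ∀ᶠ n : ℕ in atTop,
          r ≤ (occ (A ω) (translates H) {x | n ^ e < x ∧ (x : ℝ) < (n : ℝ) ^ e + len Q H e a n}).ncard) ∧
        (a ≤ (r : ℝ) → ∀ᵐ ω ∂μ, ∃ᶠ n : ℕ in atTop,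
          (occ (A ω) (translates H) {x | n ^ e < x ∧ (x : ℝ) < (n : ℝ) ^ e + len Q H e a n}).ncard < r) ∧
        ∀ᵐ ω ∂μ, ∀ᶠ n : ℕ in atTop, r ≤ (occ (A ω) (translates H) {x | n ^ e < x ∧ x < (n + 1) ^ e}).ncard := by
  refine ⟨fun Q => ⟨ℕ → Bool, inferInstance, Pool.Agent.Q120.GM.prodMeasure (level Q), inferInstance,
    Pool.Agent.Q120.GM.trueSet, Pool.Agent.Q120.GM.isModel (level Q) (Pool.Agent.Q120.GM.level_nonneg Q)
      (Pool.Agent.Q120.GM.level_le_one Q)⟩, ?_⟩
  intro Ω _ μ _ A Q hQ hA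
  refine ⟨?_, quad_overlap, ?_⟩
  · intro F hF ha r hr
    obtain ⟨r, rfl⟩ : ∃ r', r = r' + 1 := ⟨r - 1, by omega⟩
    have hqq := (Pool.Agent.Q120.GM.qq_pos hQ).le
    obtain ⟨c, C, hc, hC, h⟩ := Pool.Agent.Q106.ZO.zero_one hA (K := (F.card : ℝ) ^ 2 + 1)
      (q := Pool.Agent.Q120.GM.qq Q) (by positivity) hqq r
    refine ⟨c, C, hc, hC, fun B hB => ?_⟩
    obtain ⟨h1, h2⟩ := h _ _ _ (Pool.Agent.Q106.ZO.sq_one (Q := Q) hF ha hB)
    simp only [poisson_eq, mean_eq hF ha, failures_eq hF ha]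
    refine ⟨fun hs => ?_, h2, fun hs hov => ?_⟩
    · filter_upwards [h1 hs] with ω hω
      filter_upwards [hω] with n hn
      by_contra hcon
      exact hn ((ncard_eq hF ha A (B n) r ω).1 (by omega))
    · exact Pool.Agent.Q106.ZO.count_law hA (K := (F.card : ℝ) ^ 2 + 1) (by positivity) hqq r _ _ _
        (Pool.Agent.Q106.ZO.sq_two (Q := Q) hF ha hov hB) hs
  · intro H h0 hs e he r hr a
    obtain ⟨r, rfl⟩ : ∃ r', r = r' + 1 := ⟨r - 1, by omega⟩
    have hF : (translates H).Nonempty := Pool.Agent.Q106.ZO.lf_nonempty h0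
    have ha : ∀ f ∈ translates H, 1 ≤ f.1 := Pool.Agent.Q106.ZO.lf_one
    have hset : ∀ (a : ℝ) (n : ℕ), {x : ℕ | n ^ e < x ∧ (x : ℝ) < (n : ℝ) ^ e + len Q H e a n} =
        ↑(Pool.Agent.Q106.ZO.Bw Q H e a n) := by
      intro a n
      ext x
      unfold Pool.Agent.Q106.ZO.Bw
      rw [Finset.mem_coe, mem_Ioo, Nat.lt_ceil]
      exact Iff.rfl
    have hup : ∀ a : ℝ, ((r : ℝ) + 1 < a → ∀ᵐ ω ∂μ, ∀ᶠ n : ℕ in atTop,
        r + 1 ≤ (occ (A ω) (translates H) ↑(Pool.Agent.Q106.ZO.Bw Q H e a n)).ncard) := by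
      intro a ha'
      filter_upwards [(Pool.Agent.Q106.ZO.pw_law hA hQ h0 hs he a r).1 ha'] with ω hω
      filter_upwards [hω] with n hn
      by_contra hcon
      exact hn ((ncard_eq hF ha A _ r ω).1 (by omega))
    refine ⟨fun ha' => ?_, fun ha' => ?_, ?_⟩
    · push_cast at ha'
      simp only [hset]
      exact hup a ha'
    · push_cast at ha'
      simp only [hset]
      filter_upwards [(Pool.Agent.Q106.ZO.pw_law hA hQ h0 hs he a r).2 ha'] with ω hω
      refine hω.mono (fun n hn => ?_)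
      exact (ncard_eq hF ha A _ r ω).2 hn
    · filter_upwards [hup ((r : ℝ) + 2) (by linarith)] with ω hω
      filter_upwards [hω, Pool.Agent.Q106.ZO.Lw_small hs e ((r : ℝ) + 2) 1,
        Pool.Agent.Q106.UR.log_tendsto.eventually_ge_atTop 1] with n h1 h2 h3
      refine h1.trans (Set.ncard_le_ncard ?_ ?_)
      · intro m hm v hv
        refine ⟨(hm v hv).1, ?_⟩
        have h4 := (hm v hv).2
        unfold Pool.Agent.Q106.ZO.Bw at h4
        rw [Finset.mem_coe, mem_Ioo, Nat.lt_ceil] at h4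
        refine ⟨h4.1, ?_⟩
        have h5 : Pool.Agent.Q106.ZO.Lw Q H e ((r : ℝ) + 2) n ≤ n := by
          have h6 : (Pool.Agent.Q106.ZO.Lw Q H e ((r : ℝ) + 2) n + 1) * 1 ≤
              (Pool.Agent.Q106.ZO.Lw Q H e ((r : ℝ) + 2) n + 1) * Real.log n :=
            mul_le_mul_of_nonneg_left h3 (by linarith [h2.1])
          linarith
        have h6 : n ^ e + n ≤ (n + 1) ^ e := by
          obtain ⟨e', rfl⟩ : ∃ e', e = e' + 2 := ⟨e - 2, by omega⟩
          have h6 : n ^ (e' + 1) ≤ (n + 1) ^ (e' + 1) := Nat.pow_le_pow_left (by omega) _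
          have h7 : n ≤ n ^ (e' + 1) := Nat.le_self_pow (by omega) n
          calc n ^ (e' + 2) + n ≤ n ^ (e' + 1) * n + n ^ (e' + 1) := by
                rw [pow_succ n (e' + 1)]
                omega
            _ = n ^ (e' + 1) * (n + 1) := by ring
            _ ≤ (n + 1) ^ (e' + 1) * (n + 1) := Nat.mul_le_mul_right _ h6
            _ = (n + 1) ^ (e' + 2) := by rw [pow_succ (n + 1) (e' + 1)]
        have h7 : (v : ℝ) < ((n + 1 : ℕ) : ℝ) ^ e := by
          have h8 : ((n : ℝ)) ^ e + n ≤ ((n + 1 : ℕ) : ℝ) ^ e := by exact_mod_cast h6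
          linarith [h4.2]
        exact_mod_cast h7
      · refine (Set.finite_lt_nat ((n + 1) ^ e)).subset (fun m hm => ?_)
        obtain ⟨f, hf⟩ := hF
        have h4 := (hm _ (mem_image.2 ⟨f, hf, rfl⟩)).2.2
        have h5 : m ≤ f.1 * m := Nat.le_mul_of_pos_left m (ha f hf)
        show m < (n + 1) ^ e
        omega

end Pool.Agent.Results.MP_c03ca8_nt.ZeroOneLaw
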